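import Pool.Agent.H81.WK.Defs

/-! `exists_fullyDiv` of `H81/WK/FD`, from `fullyDiv_of_rich`. -/

set_option linter.unusedSectionVars false

open Module Submodule H15

namespace H81.WK

variable {ι : Type*} [Fintype ι] {E : Type*} [AddCommGroup E] [Module ℝ E]
  [FiniteDimensional ℝ E]

/-- the thresholds -/
def fdT (d : ℕ) : ℕ := ∑ i ∈ Finset.range d, 2 * (i + 2) ^ 2

theorem fdT_succ (d : ℕ) : fdT (d + 1) = fdT d + 2 * (d + 2) ^ 2 := Finset.sum_range_succ _ _

theorem fdT_mono {a b : ℕ} (h : a ≤ b) : fdT a ≤ fdT b :=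
  Finset.sum_le_sum_of_subset (Finset.range_mono h)

theorem fdT_le (d : ℕ) : fdT d ≤ 2 * (d + 1) ^ 3 := by
  induction d with
  | zero => simp [fdT]
  | succ d ih =>
    have h : 2 * (d + 1) ^ 3 + 2 * (d + 2) ^ 2 + (4 * (d + 1) ^ 2 + 2 * (d + 1)) = 2 * (d + 1 + 1) ^ 3 := by ring
    rw [fdT_succ]
    omega

/-- **choice of F**, assuming that rich subspaces are fully divisible. -/
theorem exists_fullyDiv_of {v : ι → E} (hrich : ∀ F : Submodule ℝ E, (∀ G : Submodule ℝ E, G < F →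
      {i | v i ∈ G}.ncard + 2 * (finrank ℝ F + 1) ^ 2 ≤ {i | v i ∈ F}.ncard) → FullyDiv v F) (h0 : ∀ i, v i ≠ 0)
    (hnp : ∀ G : Submodule ℝ E, finrank ℝ G ≤ 1 → {i | v i ∈ G}.ncard ≤ 1)
    {r s : ℕ} {H : Submodule ℝ E} (hH : finrank ℝ H ≤ r)
    (hcnt : s + finrank ℝ H ≤ {i | v i ∈ H}.ncard) (hs : 2 * (r + 1) ^ 3 < s) :
    ∃ F : Submodule ℝ E, 2 ≤ finrank ℝ F ∧ finrank ℝ F ≤ r ∧ FullyDiv v F := by
  classical
  have hcard : ∀ F : Submodule ℝ E, {i | v i ∈ F}.ncard ≤ Fintype.card ι := by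
    intro F
    rw [← Nat.card_eq_fintype_card, ← Set.ncard_univ]
    exact Set.ncard_le_ncard (Set.subset_univ _) (Set.toFinite _)
  -- the defect
  set m : Submodule ℝ E → ℕ := fun F => Fintype.card ι + fdT (finrank ℝ F) - {i | v i ∈ F}.ncard with hm
  have hex : ∃ n : ℕ, ∃ F : Submodule ℝ E, F ≤ H ∧ m F = n := ⟨m H, H, le_rfl, rfl⟩
  obtain ⟨F, hFH, hFn⟩ := Nat.find_spec hex
  have hmin : ∀ G : Submodule ℝ E, G ≤ H → {i | v i ∈ G}.ncard + fdT (finrank ℝ F) ≤
      {i | v i ∈ F}.ncard + fdT (finrank ℝ G) := by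
    intro G hG
    have h1 : Nat.find hex ≤ m G := Nat.find_min' hex ⟨G, hG, rfl⟩
    rw [← hFn] at h1
    simp only [hm] at h1
    have h2 := hcard F
    have h3 := hcard G
    omega
  have hr : finrank ℝ F ≤ r := (Submodule.finrank_mono hFH).trans hH
  have hbig := hmin H le_rfl
  have hTH : fdT (finrank ℝ H) ≤ 2 * (r + 1) ^ 3 := by
    refine (fdT_le _).trans ?_
    have : finrank ℝ H + 1 ≤ r + 1 := by omega
    exact Nat.mul_le_mul_left 2 (Nat.pow_le_pow_left this 3)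
  refine ⟨F, ?_, hr, hrich F fun G hGF => ?_⟩
  · by_contra hlt
    have h1 : finrank ℝ F ≤ 1 := by omega
    have h2 := hnp F h1
    rcases Nat.eq_zero_or_pos (finrank ℝ F) with h3 | h3
    · have h4 : F = ⊥ := Submodule.finrank_eq_zero.1 h3
      have h5 : {i | v i ∈ F}.ncard = 0 := by
        rw [Set.ncard_eq_zero (Set.toFinite _)]
        ext i
        simp only [Set.mem_ofPred_eq, Set.mem_empty_iff_false, iff_false, h4, Submodule.mem_bot]
        exact h0 i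
      omega
    · have h4 : finrank ℝ F = 1 := by omega
      have h5 : fdT 1 = 8 := by decide
      rw [h4, h5] at hbig
      omega
  · have h1 : finrank ℝ G < finrank ℝ F := Submodule.finrank_lt_finrank_of_lt hGF
    obtain ⟨e, he⟩ : ∃ e, finrank ℝ F = e + 1 := ⟨finrank ℝ F - 1, by omega⟩
    have h2 := hmin G (hGF.le.trans hFH)
    have h3 : fdT (finrank ℝ G) ≤ fdT e := fdT_mono (by omega)
    rw [he, fdT_succ] at h2
    rw [he]
    have h4 : 2 * (e + 2) ^ 2 = 2 * (e + 1 + 1) ^ 2 := by ring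
    omega

end H81.WK
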